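import Pool.Agent.V11001.AE.Powers

/-! Windows around the powers of almost every real number in which a set of small measure contains no long interval. -/

set_option autoImplicit false
set_option maxHeartbeats 4000000

open MeasureTheory Set Filter Topology
open scoped ENNReal NNReal

namespace Pool.Agent.V11001.AE

/-- the centres of the bad windows -/
def Ctr (Bad : Set ℝ) (P h w : ℝ) : Set ℝ :=
  {T : ℝ | P ≤ T ∧ T ≤ 2 * P ∧ (T - w < P ∨ 2 * P < T + w ∨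
    ∃ u : ℝ, T - w ≤ u ∧ u + h ≤ T + w ∧ P ≤ u ∧ u + h ≤ 2 * P ∧ Icc u (u + h) ⊆ Bad)}

open Classical in
lemma ctr_vol (Bad : Set ℝ) {P h w v : ℝ} (hP : 0 < P) (hh : 0 < h) (hw : 0 < w) (hv : 0 ≤ v)
    (hbad : volume (Bad ∩ Icc P (2 * P)) ≤ ENNReal.ofReal v) :
    volume (Ctr Bad P h w) ≤ ENNReal.ofReal (2 * w + 4 * v * w / h) := by
  set K : Finset ℕ := (Finset.range (⌊4 * P / h⌋₊ + 1)).filter
    (fun k : ℕ => Ico ((k : ℝ) * (h / 2)) (((k : ℝ) + 1) * (h / 2)) ⊆ Bad ∩ Icc P (2 * P)) with hK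
  have hcardK : (K.card : ℝ) * (h / 2) ≤ v := by
    have hdisj : Set.PairwiseDisjoint (K : Set ℕ)
        (fun k : ℕ => Ico ((k : ℝ) * (h / 2)) (((k : ℝ) + 1) * (h / 2))) := by
      intro a _ b _ hab
      rw [Function.onFun, Set.disjoint_left]
      intro t ht ht'
      rw [mem_Ico] at ht ht'
      apply hab
      have h2 : 0 < h / 2 := by positivity
      have h3 : (a : ℝ) < b + 1 := lt_of_mul_lt_mul_right (lt_of_le_of_lt ht.1 ht'.2) h2.le
      have h4 : (b : ℝ) < a + 1 := lt_of_mul_lt_mul_right (lt_of_le_of_lt ht'.1 ht.2) h2.le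
      have h5 : a < b + 1 := by exact_mod_cast h3
      have h6 : b < a + 1 := by exact_mod_cast h4
      omega
    have hvol : volume (⋃ k ∈ K, Ico ((k : ℝ) * (h / 2)) (((k : ℝ) + 1) * (h / 2))) =
        ENNReal.ofReal ((K.card : ℝ) * (h / 2)) := by
      rw [measure_biUnion_finset hdisj (fun _ _ => measurableSet_Ico)]
      have : ∀ k ∈ K, volume (Ico ((k : ℝ) * (h / 2)) (((k : ℝ) + 1) * (h / 2))) = ENNReal.ofReal (h / 2) := by
        intro k _
        rw [Real.volume_Ico]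
        congr 1
        ring
      rw [Finset.sum_congr rfl this, Finset.sum_const, nsmul_eq_mul, ENNReal.ofReal_mul (Nat.cast_nonneg _),
        ENNReal.ofReal_natCast]
    have hsub : (⋃ k ∈ K, Ico ((k : ℝ) * (h / 2)) (((k : ℝ) + 1) * (h / 2))) ⊆ Bad ∩ Icc P (2 * P) := by
      intro t ht
      simp only [mem_iUnion] at ht
      obtain ⟨k, hk, ht⟩ := ht
      rw [hK, Finset.mem_filter] at hk
      exact hk.2 ht
    have h1 := (measure_mono hsub).trans hbad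
    rw [hvol] at h1
    exact (ENNReal.ofReal_le_ofReal_iff hv).1 h1
  have hcov : Ctr Bad P h w ⊆ Ico P (P + w) ∪ (Ioc (2 * P - w) (2 * P) ∪
      ⋃ k ∈ K, Icc ((k : ℝ) * (h / 2) - w) ((k : ℝ) * (h / 2) + w)) := by
    rintro T ⟨hT1, hT2, hT⟩
    rcases hT with hT | hT | ⟨u, h1, h2, h3, h4, h5⟩
    · exact Or.inl ⟨hT1, by linarith⟩
    · exact Or.inr (Or.inl ⟨by linarith, hT2⟩)
    · right
      right
      have h2' : 0 < h / 2 := by positivity
      have hu0 : 0 ≤ u / (h / 2) := div_nonneg (by linarith) h2'.le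
      set k : ℕ := ⌈u / (h / 2)⌉₊ with hk
      have k1 : u ≤ (k : ℝ) * (h / 2) := by
        rw [← div_le_iff₀ h2']
        exact Nat.le_ceil _
      have k2 : (k : ℝ) * (h / 2) < u + h / 2 := by
        have := Nat.ceil_lt_add_one hu0
        have h6 := mul_lt_mul_of_pos_right this h2'
        rw [add_mul, div_mul_cancel₀ _ h2'.ne', one_mul] at h6
        exact h6
      have k3 : ((k : ℝ) + 1) * (h / 2) < u + h := by
        rw [add_mul, one_mul]
        linarith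
      rw [mem_iUnion₂]
      refine ⟨k, ?_, ?_⟩
      · rw [hK, Finset.mem_filter, Finset.mem_range]
        refine ⟨?_, ?_⟩
        · have : (k : ℝ) ≤ 4 * P / h := by
            rw [le_div_iff₀ hh]
            linarith
          have := Nat.le_floor this
          omega
        · intro t ht
          rw [mem_Ico] at ht
          refine ⟨h5 ⟨by linarith, by linarith⟩, by linarith, by linarith⟩
      · rw [mem_Icc]
        constructor <;> linarith
  refine (measure_mono hcov).trans ((measure_union_le _ _).trans ?_)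
  have e1 : volume (Ico P (P + w)) = ENNReal.ofReal w := by
    rw [Real.volume_Ico]
    congr 1
    ring
  have e2 : volume (Ioc (2 * P - w) (2 * P)) = ENNReal.ofReal w := by
    rw [Real.volume_Ioc]
    congr 1
    ring
  have e3 : volume (⋃ k ∈ K, Icc ((k : ℝ) * (h / 2) - w) ((k : ℝ) * (h / 2) + w)) ≤
      ENNReal.ofReal (4 * v * w / h) := by
    refine (measure_biUnion_finset_le _ _).trans ?_
    have : ∀ k ∈ K, volume (Icc ((k : ℝ) * (h / 2) - w) ((k : ℝ) * (h / 2) + w)) = ENNReal.ofReal (2 * w) := by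
      intro k _
      rw [Real.volume_Icc]
      congr 1
      ring
    rw [Finset.sum_congr rfl this, Finset.sum_const, nsmul_eq_mul, ← ENNReal.ofReal_natCast,
      ← ENNReal.ofReal_mul (Nat.cast_nonneg _)]
    apply ENNReal.ofReal_le_ofReal
    rw [le_div_iff₀ hh]
    nlinarith
  have h1 := (measure_union_le (μ := volume) (Ioc (2 * P - w) (2 * P))
    (⋃ k ∈ K, Icc ((k : ℝ) * (h / 2) - w) ((k : ℝ) * (h / 2) + w)))
  rw [e2] at h1
  rw [e1]
  refine (add_le_add le_rfl (h1.trans (add_le_add le_rfl e3))).trans ?_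
  rw [← ENNReal.ofReal_add hw.le (by positivity), ← ENNReal.ofReal_add hw.le (by positivity)]
  apply ENNReal.ofReal_le_ofReal
  linarith

/-- **Windows around the powers of almost every number.** -/
theorem ae_windows {ν : ℕ → ℝ} {c A B C : ℝ} (hc : 0 < c) (hν : ∀ᶠ n : ℕ in atTop, (n : ℝ) ^ c ≤ ν n)
    (hC : 0 ≤ C) (hAB0 : 0 < B - A) (hAB : 1 < c * (B - A)) (U : Set ℝ) (hU : U.Countable) (Bad : ℕ → Set ℝ)
    (H W : ℕ → ℝ) (i₀ : ℕ) (hi₀ : 1 ≤ i₀)
    (hHW : ∀ i, i₀ ≤ i → 0 < H i ∧ 0 < W i ∧ W i ≤ (i : ℝ) ^ A * H i ∧ W i ≤ 2 ^ i / (i : ℝ) ^ (B - A))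
    (hbad : ∀ i, i₀ ≤ i → volume (Bad i ∩ Icc ((2 : ℝ) ^ i) (2 ^ (i + 1))) ≤
      ENNReal.ofReal (C * 2 ^ i / (i : ℝ) ^ B)) :
    ∀ᵐ x : ℝ, 1 < x → ∀ β ∈ U, 0 < β → ∀ᶠ n : ℕ in atTop, ∃ i, i₀ ≤ i ∧ (2 : ℝ) ^ i ≤ β * x ^ ν n - W i ∧
      β * x ^ ν n + W i ≤ 2 ^ (i + 1) ∧
      ∀ u : ℝ, β * x ^ ν n - W i ≤ u → u + H i ≤ β * x ^ ν n + W i → ∃ t : ℝ, u ≤ t ∧ t ≤ u + H i ∧ t ∉ Bad i := by
  have hc' : Countable U := hU.to_subtype
  have h2P : ∀ i : ℕ, (2 : ℝ) ^ (i + 1) = 2 * 2 ^ i := fun i => by rw [pow_succ]; ring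
  set G : ℕ → Set ℝ := fun i => Ctr (Bad i) (2 ^ i) (H i) (W i) with hG
  have hGvol : ∀ i, i₀ ≤ i → volume (G i) ≤ ENNReal.ofReal ((2 + 4 * C) * 2 ^ i / (i : ℝ) ^ (B - A)) := by
    intro i hi
    obtain ⟨g1, g2, g3, g4⟩ := hHW i hi
    have hi1 : (1 : ℝ) ≤ i := by exact_mod_cast hi₀.trans hi
    have hi0 : (0 : ℝ) < i := by linarith
    have h1 := ctr_vol (Bad i) (P := 2 ^ i) (h := H i) (w := W i) (v := C * 2 ^ i / (i : ℝ) ^ B) (by positivity) g1 g2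
      (by positivity) (by
        have := hbad i hi
        rwa [h2P] at this)
    refine h1.trans (ENNReal.ofReal_le_ofReal ?_)
    have h2 : 4 * (C * 2 ^ i / (i : ℝ) ^ B) * W i / H i ≤ 4 * C * 2 ^ i / (i : ℝ) ^ (B - A) := by
      rw [div_le_iff₀ g1]
      have h3 : (i : ℝ) ^ (B - A) = (i : ℝ) ^ B / (i : ℝ) ^ A := Real.rpow_sub hi0 _ _
      have hiA : 0 < (i : ℝ) ^ A := Real.rpow_pos_of_pos hi0 _
      have hiB : 0 < (i : ℝ) ^ B := Real.rpow_pos_of_pos hi0 _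
      have h4 : 4 * C * 2 ^ i / (i : ℝ) ^ (B - A) * H i = 4 * (C * 2 ^ i / (i : ℝ) ^ B) * ((i : ℝ) ^ A * H i) := by
        rw [h3]
        field_simp
      rw [h4]
      exact mul_le_mul_of_nonneg_left g3 (by positivity)
    have h3 : 2 * W i ≤ 2 * 2 ^ i / (i : ℝ) ^ (B - A) := by
      rw [mul_div_assoc]
      linarith
    calc 2 * W i + 4 * (C * 2 ^ i / (i : ℝ) ^ B) * W i / H i ≤
          2 * 2 ^ i / (i : ℝ) ^ (B - A) + 4 * C * 2 ^ i / (i : ℝ) ^ (B - A) := add_le_add h3 h2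
      _ = (2 + 4 * C) * 2 ^ i / (i : ℝ) ^ (B - A) := by ring
  have hall : ∀ b : {β : U // 0 < (β : ℝ)}, ∀ᵐ x : ℝ, 1 < x → ∀ᶠ n : ℕ in atTop, ∀ i, i₀ ≤ i →
      (b.1 : ℝ) * x ^ ν n ∉ G i := fun b =>
    ae_powers hc hν b.2 (by positivity : (0 : ℝ) ≤ 2 + 4 * C) hAB0 hAB G i₀ (fun i t ht => ⟨ht.1, by
      rw [h2P]
      exact ht.2.1⟩) hGvol
  rw [← ae_all_iff] at hall
  have hνlim : Tendsto ν atTop atTop :=
    tendsto_atTop_mono' _ hν ((tendsto_rpow_atTop hc).comp tendsto_natCast_atTop_atTop)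
  filter_upwards [hall] with x hx hx1 β hβ hβ0
  have hlim : Tendsto (fun n => β * x ^ ν n) atTop atTop := by
    have h1 : Tendsto (fun n => x ^ ν n) atTop atTop := by
      have h2 : Tendsto (fun n => Real.exp (Real.log x * ν n)) atTop atTop :=
        Real.tendsto_exp_atTop.comp (hνlim.const_mul_atTop (Real.log_pos hx1))
      refine h2.congr fun n => ?_
      rw [Real.rpow_def_of_pos (by linarith)]
    exact h1.const_mul_atTop hβ0
  filter_upwards [hx ⟨⟨β, hβ⟩, hβ0⟩ hx1, hlim.eventually_ge_atTop (2 ^ i₀)] with n hn hn2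
  obtain ⟨i, k1, k2⟩ := exists_nat_pow_near (show 1 ≤ β * x ^ ν n from (one_le_pow₀ (by norm_num)).trans hn2)
    (show (1 : ℝ) < 2 by norm_num)
  have hi : i₀ ≤ i := by
    have h1 : (2 : ℝ) ^ i₀ < 2 ^ (i + 1) := lt_of_le_of_lt hn2 k2
    have h2 := (pow_lt_pow_iff_right₀ (by norm_num : (1 : ℝ) < 2)).1 h1
    omega
  have h1 := hn i hi
  have h2 : ¬ ((2 : ℝ) ^ i ≤ β * x ^ ν n ∧ β * x ^ ν n ≤ 2 * 2 ^ i ∧ (β * x ^ ν n - W i < 2 ^ i ∨
      2 * 2 ^ i < β * x ^ ν n + W i ∨ ∃ u : ℝ, β * x ^ ν n - W i ≤ u ∧ u + H i ≤ β * x ^ ν n + W i ∧ 2 ^ i ≤ u ∧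
        u + H i ≤ 2 * 2 ^ i ∧ Icc u (u + H i) ⊆ Bad i)) := h1
  rw [h2P] at k2
  push Not at h2
  obtain ⟨h3, h4, h5⟩ := h2 k1 k2.le
  refine ⟨i, hi, h3, by rw [h2P]; exact h4, fun u hu1 hu2 => ?_⟩
  have h6 := h5 u hu1 hu2 (h3.trans hu1) (hu2.trans h4)
  rw [Set.not_subset] at h6
  obtain ⟨t, ht1, ht2⟩ := h6
  exact ⟨t, ht1.1, ht1.2, ht2⟩

end Pool.Agent.V11001.AE
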