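import Mathlib

/-! Powers of almost every real number outside of given sets of small measure (a logarithmic saving suffices). -/

set_option autoImplicit false
set_option maxHeartbeats 4000000

open MeasureTheory Set Filter Topology
open scoped ENNReal NNReal

namespace Pool.Agent.V11001.AE

lemma expand {β ν x y P b : ℝ} (hβ : 0 < β) (hν : 1 ≤ ν) (hx : 0 < x) (hxy : x ≤ y) (hyb : y ≤ b) (hP : 0 ≤ P)
    (hP' : P ≤ β * x ^ ν) : P * ν / b * (y - x) ≤ β * y ^ ν - β * x ^ ν := by
  have hy : 0 < y := hx.trans_le hxy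
  have hb : 0 < b := hy.trans_le hyb
  have hyx : 0 ≤ y - x := by linarith
  have h0 : -1 ≤ y / x - 1 := by
    have : 0 ≤ y / x := by positivity
    linarith
  have h1 : 1 + ν * (y / x - 1) ≤ (1 + (y / x - 1)) ^ ν := one_add_mul_self_le_rpow_one_add h0 hν
  have e : 1 + (y / x - 1) = y / x := by ring
  rw [e, Real.div_rpow hy.le hx.le] at h1
  have hxν : 0 < x ^ ν := Real.rpow_pos_of_pos hx _
  have h2 : β * x ^ ν * (1 + ν * (y / x - 1)) ≤ β * y ^ ν := by
    calc β * x ^ ν * (1 + ν * (y / x - 1)) ≤ β * x ^ ν * (y ^ ν / x ^ ν) :=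
          mul_le_mul_of_nonneg_left h1 (by positivity)
      _ = β * y ^ ν := by field_simp
  have h3 : y / x - 1 = (y - x) / x := by field_simp
  rw [h3] at h2
  have h4 : P * ν / b * (y - x) ≤ β * x ^ ν * (ν * ((y - x) / x)) := by
    have h5 : (y - x) / b ≤ (y - x) / x := div_le_div_of_nonneg_left hyx hx (hxy.trans hyb)
    have h6 : 0 ≤ ν * ((y - x) / x) := mul_nonneg (by linarith) (div_nonneg hyx hx.le)
    calc P * ν / b * (y - x) = P * (ν * ((y - x) / b)) := by ring
      _ ≤ P * (ν * ((y - x) / x)) :=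
          mul_le_mul_of_nonneg_left (mul_le_mul_of_nonneg_left h5 (by linarith)) hP
      _ ≤ β * x ^ ν * (ν * ((y - x) / x)) := mul_le_mul_of_nonneg_right hP' h6
  have h7 : β * x ^ ν * (1 + ν * ((y - x) / x)) = β * x ^ ν + β * x ^ ν * (ν * ((y - x) / x)) := by ring
  rw [h7] at h2
  linarith

/-- the measure of the preimages -/
lemma preimage {β ν a b P : ℝ} (hβ : 0 < β) (hν : 1 ≤ ν) (ha : 0 < a) (hab : a ≤ b) (hP : 0 < P) (G : Set ℝ)
    (hG : ∀ t ∈ G, P ≤ t) :
    volume {x : ℝ | a ≤ x ∧ x ≤ b ∧ β * x ^ ν ∈ G} ≤ ENNReal.ofReal (b / (P * ν)) * volume G := by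
  set S : Set ℝ := {x : ℝ | a ≤ x ∧ x ≤ b ∧ β * x ^ ν ∈ G} with hS
  set f : ℝ → ℝ := fun x => β * x ^ ν with hf
  have hb : 0 < b := ha.trans_le hab
  have hν0 : 0 < ν := by linarith
  have hK : 0 < P * ν / b := by positivity
  have hexp : ∀ x ∈ S, ∀ y ∈ S, x ≤ y → P * ν / b * (y - x) ≤ f y - f x := by
    intro x hx y hy hxy
    exact expand hβ hν (ha.trans_le hx.1) hxy hy.2.1 hP.le (hG _ hx.2.2)
  have habs : ∀ x ∈ S, ∀ y ∈ S, P * ν / b * |x - y| ≤ |f x - f y| := by
    intro x hx y hy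
    rcases le_total x y with h | h
    · have h1 := hexp x hx y hy h
      rw [abs_of_nonpos (by linarith : x - y ≤ 0), abs_sub_comm (f x) (f y)]
      calc P * ν / b * -(x - y) = P * ν / b * (y - x) := by ring
        _ ≤ f y - f x := h1
        _ ≤ |f y - f x| := le_abs_self _
    · have h1 := hexp y hy x hx h
      rw [abs_of_nonneg (by linarith : 0 ≤ x - y)]
      exact h1.trans (le_abs_self _)
  have hinj : Set.InjOn f S := by
    intro x hx y hy hxy
    have h1 := habs x hx y hy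
    rw [hxy, sub_self, abs_zero] at h1
    have h2 : |x - y| ≤ 0 := by
      by_contra hcon
      rw [not_le] at hcon
      have := mul_pos hK hcon
      linarith
    have h3 : x - y = 0 := abs_nonpos_iff.1 h2
    linarith
  set g : ℝ → ℝ := Function.invFunOn f S with hgdef
  have hg : ∀ x ∈ S, g (f x) = x := fun x hx => hinj.leftInvOn_invFunOn hx
  have himg : g '' (f '' S) = S := by
    ext x
    constructor
    · rintro ⟨_, ⟨y, hy, rfl⟩, rfl⟩
      rw [hg y hy]
      exact hy
    · intro hx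
      exact ⟨f x, ⟨x, hx, rfl⟩, hg x hx⟩
  have hlip : LipschitzOnWith (Real.toNNReal (b / (P * ν))) g (f '' S) := by
    refine LipschitzOnWith.of_dist_le_mul ?_
    rintro _ ⟨x, hx, rfl⟩ _ ⟨y, hy, rfl⟩
    rw [hg x hx, hg y hy, Real.dist_eq, Real.dist_eq, Real.coe_toNNReal _ (by positivity)]
    have h1 := habs x hx y hy
    have h2 : |x - y| = b / (P * ν) * (P * ν / b * |x - y|) := by
      field_simp
    rw [h2]
    exact mul_le_mul_of_nonneg_left h1 (by positivity)
  have h1 := hlip.hausdorffMeasure_image_le (d := 1) (by norm_num)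
  rw [himg, hausdorffMeasure_real, ENNReal.rpow_one] at h1
  refine h1.trans ?_
  have h2 : volume (f '' S) ≤ volume G := by
    refine measure_mono ?_
    rintro _ ⟨x, hx, rfl⟩
    exact hx.2.2
  exact mul_le_mul_right h2 _

/-- **Powers of almost every number.** -/
theorem ae_powers {ν : ℕ → ℝ} {c D C β : ℝ} (hc : 0 < c) (hν : ∀ᶠ n : ℕ in atTop, (n : ℝ) ^ c ≤ ν n) (hβ : 0 < β)
    (hC : 0 ≤ C) (hD0 : 0 < D) (hD : 1 < c * D) (G : ℕ → Set ℝ) (i₀ : ℕ)
    (hG : ∀ i, ∀ t ∈ G i, (2 : ℝ) ^ i ≤ t ∧ t ≤ 2 ^ (i + 1))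
    (hvol : ∀ i, i₀ ≤ i → volume (G i) ≤ ENNReal.ofReal (C * 2 ^ i / (i : ℝ) ^ D)) :
    ∀ᵐ x : ℝ, 1 < x → ∀ᶠ n : ℕ in atTop, ∀ i, i₀ ≤ i → β * x ^ ν n ∉ G i := by
  have key : ∀ k : ℕ, ∀ᵐ x : ℝ, (1 + 1 / ((k : ℝ) + 1) ≤ x ∧ x ≤ (k : ℝ) + 2) →
      ∀ᶠ n : ℕ in atTop, ∀ i, i₀ ≤ i → β * x ^ ν n ∉ G i := by
    intro k
    set a : ℝ := 1 + 1 / ((k : ℝ) + 1) with ha
    set b : ℝ := (k : ℝ) + 2 with hb
    have hk0 : (0 : ℝ) ≤ k := Nat.cast_nonneg k
    have ha1 : 1 < a := by
      have : 0 < 1 / ((k : ℝ) + 1) := by positivity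
      linarith
    have hab : a ≤ b := by
      have : 1 / ((k : ℝ) + 1) ≤ 1 := by
        rw [div_le_one (by positivity)]
        linarith
      linarith
    have hb0 : 0 < b := by linarith
    have hla : 0 < Real.log a := Real.log_pos ha1
    have hlb : 0 < Real.log b := Real.log_pos (by linarith)
    set δ : ℝ := Real.log a / 2 with hδ
    set M : ℝ := 2 * Real.log b + 1 with hM
    have hδ0 : 0 < δ := by positivity
    have hM0 : 0 < M := by positivity
    have hνlim : Tendsto ν atTop atTop :=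
      tendsto_atTop_mono' _ hν ((tendsto_rpow_atTop hc).comp tendsto_natCast_atTop_atTop)
    have e1 := hνlim.eventually_ge_atTop (max 1 (max ((2 - 2 * Real.log β) / Real.log a) (2 * Real.log β)))
    obtain ⟨n₁, hn₁⟩ := (hν.and (e1.and (eventually_ge_atTop 1))).exists_forall_of_atTop
    set S : ℕ → Set ℝ := fun n => {x : ℝ | n₁ ≤ n ∧ a ≤ x ∧ x ≤ b ∧ ∃ i, i₀ ≤ i ∧ β * x ^ ν n ∈ G i} with hS
    set K : ℝ := (M + 1) * b * C / δ ^ D with hK
    have hK0 : 0 ≤ K := by positivity
    have hl2 : 0 < Real.log 2 := Real.log_pos (by norm_num)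
    have hl21 : Real.log 2 ≤ 1 := by
      have := Real.log_two_lt_d9
      linarith
    have hl22 : 1 / 2 ≤ Real.log 2 := by
      have := Real.log_two_gt_d9
      linarith
    have hSvol : ∀ n, volume (S n) ≤ ENNReal.ofReal (K * (n : ℝ) ^ (-(c * D))) := by
      intro n
      by_cases hn : n₁ ≤ n
      swap
      · have : S n = ∅ := by
          ext x
          simp only [hS, mem_ofPred_eq, mem_empty_iff_false, iff_false]
          rintro ⟨h, -⟩
          exact hn h
        rw [this, measure_empty]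
        exact zero_le
      obtain ⟨g1, g2, g3⟩ := hn₁ n hn
      have hν1 : 1 ≤ ν n := (le_max_left _ _).trans g2
      have hν2 : (2 - 2 * Real.log β) / Real.log a ≤ ν n :=
        ((le_max_left _ _).trans (le_max_right _ _)).trans g2
      have hν3 : 2 * Real.log β ≤ ν n := ((le_max_right _ _).trans (le_max_right _ _)).trans g2
      have hν0 : 0 < ν n := by linarith
      rw [div_le_iff₀ hla] at hν2
      have hn0 : (0 : ℝ) < n := by exact_mod_cast g3
      set I : Finset ℕ := (Finset.Icc ⌈δ * ν n⌉₊ ⌊M * ν n⌋₊).filter (fun i => i₀ ≤ i) with hI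
      have hsub : S n ⊆ ⋃ i ∈ I, {x : ℝ | a ≤ x ∧ x ≤ b ∧ β * x ^ ν n ∈ G i} := by
        rintro x ⟨-, hxa, hxb, i, hi, hxi⟩
        have hx0 : 0 < x := by linarith
        obtain ⟨k1, k2⟩ := hG i _ hxi
        have hlog : Real.log (β * x ^ ν n) = Real.log β + ν n * Real.log x := by
          rw [Real.log_mul hβ.ne' (Real.rpow_pos_of_pos hx0 _).ne', Real.log_rpow hx0]
        have hpos : 0 < β * x ^ ν n := mul_pos hβ (Real.rpow_pos_of_pos hx0 _)
        have hlx1 : Real.log a ≤ Real.log x := Real.log_le_log (by linarith) hxa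
        have hlx2 : Real.log x ≤ Real.log b := Real.log_le_log hx0 hxb
        have h1 : (i : ℝ) * Real.log 2 ≤ Real.log β + ν n * Real.log x := by
          rw [← hlog, ← Real.log_pow]
          exact Real.log_le_log (by positivity) k1
        have h2 : Real.log β + ν n * Real.log x ≤ ((i : ℝ) + 1) * Real.log 2 := by
          have : Real.log (β * x ^ ν n) ≤ Real.log ((2 : ℝ) ^ (i + 1)) := Real.log_le_log hpos k2
          rw [hlog, Real.log_pow] at this
          exact_mod_cast this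
        have hi0 : (0 : ℝ) ≤ i := Nat.cast_nonneg i
        have h3 : ν n * Real.log a ≤ ν n * Real.log x := mul_le_mul_of_nonneg_left hlx1 hν0.le
        have h4 : ν n * Real.log x ≤ ν n * Real.log b := mul_le_mul_of_nonneg_left hlx2 hν0.le
        have h5 : ((i : ℝ) + 1) * Real.log 2 ≤ i + 1 := by nlinarith
        have h6 : (i : ℝ) / 2 ≤ i * Real.log 2 := by nlinarith
        rw [mem_iUnion₂]
        refine ⟨i, ?_, hxa, hxb, hxi⟩
        rw [hI, Finset.mem_filter, Finset.mem_Icc, Nat.ceil_le]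
        refine ⟨⟨?_, Nat.le_floor ?_⟩, hi⟩
        · rw [hδ]
          nlinarith
        · rw [hM]
          nlinarith
      refine (measure_mono hsub).trans ((measure_biUnion_finset_le _ _).trans ?_)
      have hterm : ∀ i ∈ I, volume {x : ℝ | a ≤ x ∧ x ≤ b ∧ β * x ^ ν n ∈ G i} ≤
          ENNReal.ofReal (b * C / (ν n * (δ * ν n) ^ D)) := by
        intro i hi
        rw [hI, Finset.mem_filter, Finset.mem_Icc, Nat.ceil_le] at hi
        obtain ⟨⟨k1, k2⟩, k3⟩ := hi
        have hδν : 0 < δ * ν n := by positivity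
        have hi0 : (0 : ℝ) < i := lt_of_lt_of_le hδν k1
        have h1 := preimage hβ hν1 (by linarith : 0 < a) hab (show (0 : ℝ) < 2 ^ i by positivity) (G i)
          (fun t ht => (hG i t ht).1)
        refine h1.trans ((mul_le_mul_right (hvol i k3) _).trans ?_)
        rw [← ENNReal.ofReal_mul (by positivity)]
        apply ENNReal.ofReal_le_ofReal
        have h2 : b / (2 ^ i * ν n) * (C * 2 ^ i / (i : ℝ) ^ D) = b * C / (ν n * (i : ℝ) ^ D) := by
          field_simp
        rw [h2]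
        apply div_le_div_of_nonneg_left (by positivity) (by positivity)
        exact mul_le_mul_of_nonneg_left (Real.rpow_le_rpow hδν.le k1 hD0.le) hν0.le
      refine (Finset.sum_le_sum hterm).trans ?_
      rw [Finset.sum_const, nsmul_eq_mul]
      have hcard : (I.card : ℝ) ≤ (M + 1) * ν n := by
        have h1 : I.card ≤ (Finset.Icc ⌈δ * ν n⌉₊ ⌊M * ν n⌋₊).card := Finset.card_filter_le _ _
        rw [Nat.card_Icc] at h1
        have h2 : I.card ≤ ⌊M * ν n⌋₊ + 1 := h1.trans (Nat.sub_le _ _)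
        have h3 : (⌊M * ν n⌋₊ : ℝ) ≤ M * ν n := Nat.floor_le (by positivity)
        have h4 : (I.card : ℝ) ≤ (⌊M * ν n⌋₊ : ℝ) + 1 := by exact_mod_cast h2
        linarith
      rw [← ENNReal.ofReal_natCast, ← ENNReal.ofReal_mul (Nat.cast_nonneg _)]
      apply ENNReal.ofReal_le_ofReal
      calc (I.card : ℝ) * (b * C / (ν n * (δ * ν n) ^ D)) ≤ (M + 1) * ν n * (b * C / (ν n * (δ * ν n) ^ D)) :=
            mul_le_mul_of_nonneg_right hcard (by positivity)
        _ = K * (ν n) ^ (-D) := by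
            rw [Real.mul_rpow hδ0.le hν0.le, Real.rpow_neg hν0.le, hK]
            have h1 : (0 : ℝ) < δ ^ D := Real.rpow_pos_of_pos hδ0 _
            have h2 : (0 : ℝ) < (ν n) ^ D := Real.rpow_pos_of_pos hν0 _
            field_simp
        _ ≤ K * ((n : ℝ) ^ c) ^ (-D) := by
            apply mul_le_mul_of_nonneg_left _ hK0
            exact Real.rpow_le_rpow_of_nonpos (Real.rpow_pos_of_pos hn0 _) g1 (by linarith)
        _ = K * (n : ℝ) ^ (-(c * D)) := by
            rw [← Real.rpow_mul hn0.le]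
            congr 2
            ring
    have hsum : Summable (fun n : ℕ => K * (n : ℝ) ^ (-(c * D))) :=
      (Real.summable_nat_rpow.2 (by linarith)).mul_left K
    have htop : ∑' n, volume (S n) ≠ ⊤ := by
      refine ne_top_of_le_ne_top ?_ (ENNReal.tsum_le_tsum hSvol)
      exact hsum.tsum_ofReal_ne_top
    filter_upwards [ae_eventually_notMem htop] with x hx hxk
    filter_upwards [hx, eventually_ge_atTop n₁] with n hn hn1 i hi hcon
    exact hn ⟨hn1, hxk.1, hxk.2, i, hi, hcon⟩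
  rw [← ae_all_iff] at key
  filter_upwards [key] with x hx hx1
  obtain ⟨k₁, hk₁⟩ := exists_nat_one_div_lt (show (0 : ℝ) < x - 1 by linarith)
  obtain ⟨k₂, hk₂⟩ := exists_nat_ge x
  have h1 : (k₁ : ℝ) ≤ (max k₁ k₂ : ℕ) := by exact_mod_cast le_max_left _ _
  have h2 : (k₂ : ℝ) ≤ (max k₁ k₂ : ℕ) := by exact_mod_cast le_max_right _ _
  refine hx (max k₁ k₂) ⟨?_, by linarith⟩
  have h3 : 1 / (((max k₁ k₂ : ℕ) : ℝ) + 1) ≤ 1 / ((k₁ : ℝ) + 1) :=
    one_div_le_one_div_of_le (by positivity) (by linarith)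
  linarith

end Pool.Agent.V11001.AE
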